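import Mathlib

/-!
# Contact foliations on closed manifolds: definitions

Throughout `E` is a finite-dimensional real vector space, and the closed manifold is
`M = {f = 0} / Γ`, where `{f = 0}` is a smooth hypersurface of `E` and `Γ` is a group of
diffeomorphisms of `E` preserving `f`, which acts freely, properly discontinuously and
cocompactly on `{f = 0}`.  Objects on `M` are given by `Γ`-invariant objects on `{f = 0}`.
-/

set_option autoImplicit false

open scoped ContDiff
open Set

noncomputable section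

namespace Pool.Agent.Y805.CF

variable {E : Type*} [NormedAddCommGroup E] [NormedSpace ℝ E]

/-- `{f = 0}` is a connected smooth hypersurface of the finite-dimensional space `E` and `Γ` is a
group of smooth diffeomorphisms of `E` preserving `f` and acting freely and properly
discontinuously, with compact quotient, on `{f = 0}`.  So `M = {f = 0} / Γ` is a closed connected
smooth manifold of dimension `dim E - 1`. -/
structure IsClosedManifold (f : E → ℝ) (Γ : Subgroup (Equiv.Perm E)) : Prop where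
  finiteDimensional : FiniteDimensional ℝ E
  smooth_f : ContDiff ℝ ∞ f
  regular : ∀ x, f x = 0 → fderiv ℝ f x ≠ 0
  connected : IsConnected {x | f x = 0}
  smooth : ∀ g ∈ Γ, ContDiff ℝ ∞ (g : E → E)
  invariant : ∀ g ∈ Γ, ∀ x, f (g x) = f x
  free : ∀ g ∈ Γ, ∀ x, f x = 0 → g x = x → g = 1
  properlyDiscontinuous : ∀ K : Set E, IsCompact K → K ⊆ {x | f x = 0} →
    {g : Equiv.Perm E | g ∈ Γ ∧ ∃ x ∈ K, g x ∈ K}.Finite
  cocompact : ∃ K : Set E, IsCompact K ∧ K ⊆ {x | f x = 0} ∧
    ∀ x, f x = 0 → ∃ g ∈ Γ, g x ∈ K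

/-- The tangent space of the hypersurface `{f = 0}` at its point `x`. -/
def tangent (f : E → ℝ) (x : E) : Submodule ℝ E := LinearMap.ker (fderiv ℝ f x).toLinearMap

/-- The exterior derivative of a 1-form `θ` at the point `x`, evaluated on the tangent vectors
`v`, `w`. -/
def extD (θ : E → (E →L[ℝ] ℝ)) (x v w : E) : ℝ := fderiv ℝ θ x v w - fderiv ℝ θ x w v

/-- The bundle `ξ`: the tangent vectors of `{f = 0}` at `x` which are in the kernels of all the
forms `lam 0, …, lam (q-1)`. -/
def xi (f : E → ℝ) {q : ℕ} (lam : Fin q → E → (E →L[ℝ] ℝ)) (x : E) : Submodule ℝ E :=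
  tangent f x ⊓ ⨅ i, LinearMap.ker (lam i x).toLinearMap

/-- The (restrictions to `{f = 0}` of the) forms `lam 0, …, lam (q-1)` and the bundle `R` define a
`q`-contact structure on the closed manifold `M = {f = 0} / Γ` of dimension `2 n + q`: the forms
are smooth, `Γ`-invariant and pointwise linearly independent, `TM = R ⊕ ξ` with `ξ` the common
kernel of the forms, and for each `i` the restriction of `d (lam i)` to `ξ` is non-degenerate and
the kernel of `d (lam i)` is `R`. -/
structure IsQContact (f : E → ℝ) (Γ : Subgroup (Equiv.Perm E)) (n q : ℕ)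
    (lam : Fin q → E → (E →L[ℝ] ℝ)) (R : E → Submodule ℝ E) : Prop where
  n_pos : 1 ≤ n
  q_pos : 1 ≤ q
  manifold : IsClosedManifold f Γ
  finrank_eq : Module.finrank ℝ E = (2 * n + q) + 1
  smooth : ∀ i, ContDiff ℝ ∞ (lam i)
  invariant : ∀ i, ∀ g ∈ Γ, ∀ x, f x = 0 → ∀ v ∈ tangent f x,
    lam i (g x) (fderiv ℝ (g : E → E) x v) = lam i x v
  linearIndependent : ∀ x, f x = 0 →
    LinearIndependent ℝ (fun i => (lam i x).toLinearMap.domRestrict (tangent f x))
  splitting : ∀ x, f x = 0 → R x ⊓ xi f lam x = ⊥ ∧ R x ⊔ xi f lam x = tangent f x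
  nondegenerate : ∀ i x, f x = 0 → ∀ v ∈ xi f lam x,
    (∀ w ∈ xi f lam x, extD (lam i) x v w = 0) → v = 0
  ker_eq : ∀ i x, f x = 0 → ∀ v,
    (v ∈ tangent f x ∧ ∀ w ∈ tangent f x, extD (lam i) x v w = 0) ↔ v ∈ R x

/-- `X` is the system of Reeb fields: on `{f = 0}`, `X i` is a section of `R` and
`lam j (X i) = δ_{ij}`. -/
def IsReeb (f : E → ℝ) {q : ℕ} (lam : Fin q → E → (E →L[ℝ] ℝ)) (R : E → Submodule ℝ E)
    (X : Fin q → E → E) : Prop :=
  ∀ i x, f x = 0 → X i x ∈ R x ∧ ∀ j, lam j x (X i x) = if i = j then 1 else 0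

/-- The contact action (lifted to `{f = 0}`, and extended to `E`): a smooth action `F` of `ℝ^q`
preserving `f` and commuting with `Γ` (so that it descends to `M = {f = 0} / Γ`) which is
generated by the Reeb fields. -/
structure ContactAction (f : E → ℝ) (Γ : Subgroup (Equiv.Perm E)) {q : ℕ}
    (lam : Fin q → E → (E →L[ℝ] ℝ)) (R : E → Submodule ℝ E) where
  /-- the action -/
  F : (Fin q → ℝ) → E → E
  /-- the Reeb fields -/
  X : Fin q → E → E
  smooth : ContDiff ℝ ∞ (fun p : (Fin q → ℝ) × E => F p.1 p.2)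
  preserves : ∀ s x, f (F s x) = f x
  zero : ∀ x, F 0 x = x
  add : ∀ s t x, F (s + t) x = F s (F t x)
  equivariant : ∀ g ∈ Γ, ∀ s x, F s (g x) = g (F s x)
  reeb : IsReeb f lam R X
  generated : ∀ i s x, HasDerivAt (fun τ : ℝ => F (s + τ • Pi.single i 1) x) (X i (F s x)) 0

variable {f : E → ℝ} {Γ : Subgroup (Equiv.Perm E)} {q : ℕ} {lam : Fin q → E → (E →L[ℝ] ℝ)}
  {R : E → Submodule ℝ E}

/-- The isotropy group of the contact action on `M = {f = 0} / Γ` at the point `[x]` of `M`: the
set of all `s` with `F s [x] = [x]`, i.e. with `F s x = g x` for some `g ∈ Γ`. -/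
def ContactAction.isotropy (A : ContactAction f Γ lam R) (x : E) : AddSubgroup (Fin q → ℝ) where
  carrier := {s | ∃ g ∈ Γ, A.F s x = g x}
  zero_mem' := ⟨1, Γ.one_mem, by simp [A.zero]⟩
  add_mem' := by
    rintro s t ⟨g, hg, hs⟩ ⟨h, hh, ht⟩
    refine ⟨h * g, Γ.mul_mem hh hg, ?_⟩
    rw [A.add, ht, A.equivariant h hh, hs]
    rfl
  neg_mem' := by
    rintro s ⟨g, hg, hs⟩
    refine ⟨g⁻¹, Γ.inv_mem hg, ?_⟩
    have h1 : A.F (-s) (g x) = x := by
      rw [← hs, ← A.add, neg_add_cancel, A.zero]
    have h2 := A.equivariant g hg (-s) x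
    rw [h1] at h2
    rw [Equiv.Perm.inv_def]
    exact ((Equiv.symm_apply_eq g).2 h2).symm

/-- The leaf of the contact foliation through the point `[x]` of `M`, with its leaf topology: the
orbit of `[x]` under the contact action, i.e. the quotient of `ℝ^q` by the isotropy group. -/
abbrev ContactAction.Leaf (A : ContactAction f Γ lam R) (x : E) : Type :=
  (Fin q → ℝ) ⧸ A.isotropy x

end Pool.Agent.Y805.CF
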