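import Mathlib

/-!
# Integer combinations of powers of a transcendental number
-/

set_option autoImplicit false

noncomputable section

namespace Pool.Agent.Y805.CF

/-- A transcendental number. -/
def tt : ℝ := liouvilleNumber 2

theorem tt_tr : Transcendental ℤ tt := by
  have := transcendental_liouvilleNumber (m := 2) le_rfl
  simpa [tt] using this

theorem coeff_zero {ι : Type*} [Fintype ι] (e : ι → ℕ) (he : Function.Injective e) (c : ι → ℤ)
    (h : ∑ i, (c i : ℝ) * tt ^ e i = 0) : ∀ i, c i = 0 := by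
  classical
  have hp : (∑ i, Polynomial.C (c i) * Polynomial.X ^ e i : Polynomial ℤ) = 0 := by
    refine (transcendental_iff.1 tt_tr) _ ?_
    rw [map_sum]
    simpa using h
  intro i
  have h1 := congrArg (fun p => Polynomial.coeff p (e i)) hp
  simp only [Polynomial.finsetSum_coeff, Polynomial.coeff_C_mul, Polynomial.coeff_X_pow,
    Polynomial.coeff_zero] at h1
  rw [Finset.sum_eq_single i] at h1
  · simpa using h1
  · intro j _ hj
    rw [if_neg (fun h => hj (he h).symm), mul_zero]
  · intro h; exact absurd (Finset.mem_univ i) h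

/-- The first coordinate of the vectors `u k` is `tt ^ (q (k+1))`, the second is `tt ^ (k+1)`, the
others vanish; here `q = r + 2`. -/
def uc (n r : ℕ) (k : Fin (r + 1)) (i : Fin (n + 2)) : ℝ :=
  if i = 0 then tt ^ ((r + 2) * (k.val + 1)) else if i = 1 then tt ^ (k.val + 1) else 0

theorem prop {n r : ℕ} (a a' : Fin (n + 2) → ℤ) (b b' : Fin (r + 1) → ℤ) (ρ : ℝ)
    (h : ∀ i, (a i : ℝ) + ∑ k, (b k : ℝ) * uc n r k i =
      ρ * ((a' i : ℝ) + ∑ k, (b' k : ℝ) * uc n r k i)) :
    (∀ k, (b k : ℝ) = ρ * b' k) ∧ ∀ i, (a i : ℝ) = ρ * a' i := by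
  classical
  have hb : ∀ k, (b k : ℝ) = ρ * b' k := by
    -- rows 0 and 1
    let v0 : Fin (r + 2) → ℤ := Fin.cons (a 0) b
    let v0' : Fin (r + 2) → ℤ := Fin.cons (a' 0) b'
    let v1 : Fin (r + 2) → ℤ := Fin.cons (a 1) b
    let v1' : Fin (r + 2) → ℤ := Fin.cons (a' 1) b'
    have h01 : (1 : Fin (n + 2)) ≠ 0 := by
      intro h
      have := congrArg Fin.val h
      simp at this
    have e0 : ∀ (c : Fin (n + 2) → ℤ) (d : Fin (r + 1) → ℤ),
        ∑ α : Fin (r + 2), ((Fin.cons (c 0) d : Fin (r + 2) → ℤ) α : ℝ) * tt ^ ((r + 2) * α.val) =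
        (c 0 : ℝ) + ∑ k, (d k : ℝ) * uc n r k 0 := by
      intro c d
      rw [Fin.sum_univ_succ]
      simp [uc]
    have e1 : ∀ (c : Fin (n + 2) → ℤ) (d : Fin (r + 1) → ℤ),
        ∑ α : Fin (r + 2), ((Fin.cons (c 1) d : Fin (r + 2) → ℤ) α : ℝ) * tt ^ α.val =
        (c 1 : ℝ) + ∑ k, (d k : ℝ) * uc n r k 1 := by
      intro c d
      rw [Fin.sum_univ_succ]
      simp [uc]
    have H0 : ∑ α : Fin (r + 2), (v0 α : ℝ) * tt ^ ((r + 2) * α.val) =
        ρ * ∑ α : Fin (r + 2), (v0' α : ℝ) * tt ^ ((r + 2) * α.val) := by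
      rw [e0 a b, e0 a' b']; exact h 0
    have H1 : ∑ α : Fin (r + 2), (v1 α : ℝ) * tt ^ α.val =
        ρ * ∑ α : Fin (r + 2), (v1' α : ℝ) * tt ^ α.val := by
      rw [e1 a b, e1 a' b']; exact h 1
    have cab : ∀ α β, v0 α * v1' β = v0' α * v1 β := by
      have hinj : Function.Injective (fun p : Fin (r + 2) × Fin (r + 2) =>
          (r + 2) * p.1.val + p.2.val) := by
        rintro ⟨x, y⟩ ⟨x', y'⟩ hxy
        simp only at hxy
        have h1 : ((r + 2) * x.val + y.val) / (r + 2) = x.val := by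
          rw [Nat.mul_add_div (by omega), Nat.div_eq_of_lt y.2, add_zero]
        have h2 : ((r + 2) * x'.val + y'.val) / (r + 2) = x'.val := by
          rw [Nat.mul_add_div (by omega), Nat.div_eq_of_lt y'.2, add_zero]
        have h3 : x.val = x'.val := by rw [← h1, ← h2, hxy]
        rw [h3] at hxy
        have h4 : y.val = y'.val := by omega
        exact Prod.ext (Fin.ext h3) (Fin.ext h4)
      have hsum : ∑ p : Fin (r + 2) × Fin (r + 2),
          ((v0 p.1 * v1' p.2 - v0' p.1 * v1 p.2 : ℤ) : ℝ) * tt ^ ((r + 2) * p.1.val + p.2.val)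
            = 0 := by
        have q1 : (∑ α : Fin (r + 2), (v0 α : ℝ) * tt ^ ((r + 2) * α.val)) *
            (∑ α : Fin (r + 2), (v1' α : ℝ) * tt ^ α.val) -
            (∑ α : Fin (r + 2), (v0' α : ℝ) * tt ^ ((r + 2) * α.val)) *
            (∑ α : Fin (r + 2), (v1 α : ℝ) * tt ^ α.val) = 0 := by
          rw [H0, H1]; ring
        rw [← q1, Finset.sum_mul_sum, Finset.sum_mul_sum, ← Finset.sum_sub_distrib,
          Fintype.sum_prod_type]
        refine Finset.sum_congr rfl fun α _ => ?_
        rw [← Finset.sum_sub_distrib]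
        refine Finset.sum_congr rfl fun β _ => ?_
        push_cast
        rw [pow_add]
        ring
      intro α β
      have := coeff_zero _ hinj (fun p => v0 p.1 * v1' p.2 - v0' p.1 * v1 p.2) hsum (α, β)
      simp only at this
      linarith
    have lin : ∀ w : Fin (r + 2) → ℤ, ∑ α : Fin (r + 2), (w α : ℝ) * tt ^ α.val = 0 →
        ∀ α, w α = 0 := fun w hw => coeff_zero _ Fin.val_injective w hw
    by_cases hb' : ∃ k, b' k ≠ 0
    · obtain ⟨k, hk⟩ := hb'
      have hkr : (b' k : ℝ) ≠ 0 := by exact_mod_cast hk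
      have hv : ∀ β, (v1 β : ℝ) = (b k / b' k : ℝ) * v1' β := by
        intro β
        have h1 := cab k.succ β
        have h2 : (b k : ℝ) * v1' β = b' k * v1 β := by exact_mod_cast h1
        field_simp
        linarith
      have hB : ∑ α : Fin (r + 2), (v1 α : ℝ) * tt ^ α.val =
          (b k / b' k : ℝ) * ∑ α : Fin (r + 2), (v1' α : ℝ) * tt ^ α.val := by
        rw [Finset.mul_sum]
        refine Finset.sum_congr rfl fun α _ => ?_
        rw [hv]; ring
      have hne : ∑ α : Fin (r + 2), (v1' α : ℝ) * tt ^ α.val ≠ 0 := by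
        intro h0
        exact hk (lin v1' h0 k.succ)
      have hρ : (b k / b' k : ℝ) = ρ := by
        rw [H1] at hB
        exact (mul_right_cancel₀ hne hB).symm
      intro k'
      have := hv k'.succ
      rw [hρ] at this
      exact this
    · push Not at hb'
      intro k
      rw [hb' k]
      by_contra hk
      have hk' : b k ≠ 0 := by
        intro h; apply hk; rw [h]; simp
      have h1 : ∀ β, v1' β = 0 := by
        intro β
        have h2 : b k * v1' β = b' k * v1 β := cab k.succ β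
        rw [hb' k, zero_mul] at h2
        exact (mul_eq_zero.1 h2).resolve_left hk'
      have h3 : ∑ α : Fin (r + 2), (v1 α : ℝ) * tt ^ α.val = 0 := by
        rw [H1]
        simp [h1]
      exact hk' (lin v1 h3 k.succ)
  refine ⟨hb, fun i => ?_⟩
  have h1 := h i
  have h2 : ∑ k, (b k : ℝ) * uc n r k i = ρ * ∑ k, (b' k : ℝ) * uc n r k i := by
    rw [Finset.mul_sum]
    refine Finset.sum_congr rfl fun k _ => ?_
    rw [hb k]; ring
  rw [h2] at h1
  linarith

end Pool.Agent.Y805.CF
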