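import Pool.Agent.Y805.CF.Defs
import Pool.Agent.Y805.CF.Num

/-!
# The example: `S^{n+1} × T^{n+1+q}`, `q = r + 2`

`V n r = ℝ^{n+2} × ℝ^{n+2} × ℝ^{r+1}` with coordinates `(y, x, t)`.  The hypersurface is
`|y| = 1`, the group consists of the translations by integer vectors in the variables `(x, t)`.
-/

set_option autoImplicit false

open scoped ContDiff
open Set

noncomputable section

namespace Pool.Agent.Y805.CF

/-- `ℝ^{n+2}` with the Euclidean norm. -/
abbrev H (n : ℕ) := EuclideanSpace ℝ (Fin (n + 2))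

/-- The ambient space. -/
abbrev V (n r : ℕ) := H n × H n × (Fin (r + 1) → ℝ)

/-- The defining function `|y|² - 1` of the hypersurface `S^{n+1} × ℝ^{n+2} × ℝ^{r+1}`. -/
def sph (n r : ℕ) (z : V n r) : ℝ := inner ℝ z.1 z.1 - 1

/-- The integer vector `(0, a, b)` of the ambient space. -/
def ivec {n r : ℕ} (a : Fin (n + 2) → ℤ) (b : Fin (r + 1) → ℤ) : V n r :=
  (0, WithLp.toLp 2 (fun i => (a i : ℝ)), fun k => (b k : ℝ))

/-- The group of the translations by the integer vectors in the variables `(x, t)`. -/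
def tgroup (n r : ℕ) : Subgroup (Equiv.Perm (V n r)) where
  carrier := {g | ∃ (a : Fin (n + 2) → ℤ) (b : Fin (r + 1) → ℤ), ∀ z, g z = z + ivec a b}
  one_mem' := ⟨0, 0, fun z => by
    have : (ivec 0 0 : V n r) = 0 := by
      refine Prod.ext rfl (Prod.ext ?_ ?_)
      · ext i; simp [ivec]
      · funext k; simp [ivec]
    rw [this, add_zero]; rfl⟩
  mul_mem' := by
    rintro g h ⟨a, b, hg⟩ ⟨a', b', hh⟩
    refine ⟨a + a', b + b', fun z => ?_⟩
    rw [Equiv.Perm.mul_apply, hh, hg]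
    have : (ivec (a + a') (b + b') : V n r) = ivec a' b' + ivec a b := by
      refine Prod.ext (by simp [ivec]) (Prod.ext ?_ ?_)
      · ext i; simp [ivec]; ring
      · funext k; simp [ivec]; ring
    rw [this, add_assoc]
  inv_mem' := by
    rintro g ⟨a, b, hg⟩
    refine ⟨-a, -b, fun z => ?_⟩
    rw [Equiv.Perm.inv_def, Equiv.symm_apply_eq, hg]
    have : (ivec (-a) (-b) : V n r) = - ivec a b := by
      refine Prod.ext (by simp [ivec]) (Prod.ext ?_ ?_)
      · ext i; simp [ivec]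
      · funext k; simp [ivec]
    rw [this]; abel

/-- The vectors `u k`. -/
def u (n r : ℕ) (k : Fin (r + 1)) : H n := WithLp.toLp 2 (uc n r k)

/-- The linear map `(y, x, t) ↦ x + ∑ k, t k • u k`. -/
def phi (n r : ℕ) : V n r →ₗ[ℝ] H n where
  toFun v := v.2.1 + ∑ k, v.2.2 k • u n r k
  map_add' v w := by
    simp only [Prod.snd_add, Prod.fst_add, Pi.add_apply, add_smul, Finset.sum_add_distrib]
    abel
  map_smul' c v := by
    simp only [Prod.smul_snd, Prod.smul_fst, Pi.smul_apply, smul_eq_mul, RingHom.id_apply,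
      smul_add, Finset.smul_sum, mul_smul]

theorem phi_apply {n r : ℕ} (v : V n r) : phi n r v = v.2.1 + ∑ k, v.2.2 k • u n r k := rfl

/-- The bilinear form `(z, w) ↦ ⟪y(z), φ w⟫`. -/
def B (n r : ℕ) : V n r →ₗ[ℝ] V n r →ₗ[ℝ] ℝ :=
  LinearMap.mk₂ ℝ (fun z w => inner ℝ z.1 (phi n r w))
    (fun z z' w => by rw [Prod.fst_add, inner_add_left])
    (fun c z w => by rw [Prod.smul_fst, inner_smul_left]; simp)
    (fun z w w' => by rw [map_add, inner_add_right])
    (fun c z w => by rw [map_smul, inner_smul_right]; simp)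

theorem B_apply {n r : ℕ} (z w : V n r) : B n r z w = inner ℝ z.1 (phi n r w) := rfl

/-- The 1-form `α`, `α_z (w) = ⟪y(z), φ w⟫`, as a linear map. -/
def al (n r : ℕ) : V n r →L[ℝ] (V n r →L[ℝ] ℝ) :=
  LinearMap.toContinuousLinearMap
    ((LinearMap.toContinuousLinearMap : (V n r →ₗ[ℝ] ℝ) ≃ₗ[ℝ] (V n r →L[ℝ] ℝ)).toLinearMap ∘ₗ
      B n r)

theorem al_apply {n r : ℕ} (z w : V n r) : al n r z w = inner ℝ z.1 (phi n r w) := rfl

/-- The form `dt_k`. -/
def dt (n r : ℕ) (k : Fin (r + 1)) : V n r →L[ℝ] ℝ :=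
  LinearMap.toContinuousLinearMap
    { toFun := fun v => v.2.2 k
      map_add' := fun _ _ => rfl
      map_smul' := fun _ _ => rfl }

theorem dt_apply {n r : ℕ} (k : Fin (r + 1)) (v : V n r) : dt n r k v = v.2.2 k := rfl

/-- The forms `lam 0 = α`, `lam (k+1) = α + dt_k`. -/
def lam (n r : ℕ) (i : Fin (r + 2)) (z : V n r) : V n r →L[ℝ] ℝ :=
  al n r z + Fin.cases (motive := fun _ => V n r →L[ℝ] ℝ) 0 (fun k => dt n r k) i

theorem lam_zero {n r : ℕ} (z v : V n r) : lam n r 0 z v = inner ℝ z.1 (phi n r v) := by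
  simp [lam, al_apply]

theorem lam_succ {n r : ℕ} (k : Fin (r + 1)) (z v : V n r) :
    lam n r k.succ z v = inner ℝ z.1 (phi n r v) + v.2.2 k := by
  simp [lam, al_apply, dt_apply]

theorem fderiv_lam {n r : ℕ} (i : Fin (r + 2)) (z : V n r) : fderiv ℝ (lam n r i) z = al n r := by
  have h : HasFDerivAt (lam n r i) (al n r) z :=
    ((al n r).hasFDerivAt (x := z)).add_const _
  exact h.fderiv

theorem extD_lam {n r : ℕ} (i : Fin (r + 2)) (z v w : V n r) : extD (lam n r i) z v w =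
    inner ℝ v.1 (phi n r w) - inner ℝ w.1 (phi n r v) := by
  rw [extD, fderiv_lam]; rfl

theorem smooth_lam {n r : ℕ} (i : Fin (r + 2)) : ContDiff ℝ ∞ (lam n r i) :=
  (al n r).contDiff.add contDiff_const

/-! ### The hypersurface -/

theorem hasFDerivAt_sph {n r : ℕ} (z : V n r) : HasFDerivAt (sph n r)
    ((2 : ℝ) • ((innerSL ℝ z.1).comp (ContinuousLinearMap.fst ℝ (H n) (H n × (Fin (r + 1) → ℝ))))) z
    := by
  have h1 : HasFDerivAt (fun z : V n r => z.1)
      (ContinuousLinearMap.fst ℝ (H n) (H n × (Fin (r + 1) → ℝ))) z := hasFDerivAt_fst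
  have h := (h1.inner ℝ h1).sub_const 1
  refine h.congr_fderiv (ContinuousLinearMap.ext fun v => ?_)
  change fderivInnerCLM ℝ (z.1, z.1) (v.1, v.1) = 2 * inner ℝ z.1 v.1
  rw [fderivInnerCLM_apply]
  simp only [real_inner_comm]
  ring

theorem fderiv_sph {n r : ℕ} (z v : V n r) : fderiv ℝ (sph n r) z v = 2 * inner ℝ z.1 v.1 := by
  rw [(hasFDerivAt_sph z).fderiv]; rfl

theorem mem_tangent {n r : ℕ} {z v : V n r} : v ∈ tangent (sph n r) z ↔ inner ℝ z.1 v.1 = 0 := by
  rw [tangent, LinearMap.mem_ker]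
  change fderiv ℝ (sph n r) z v = 0 ↔ _
  rw [fderiv_sph]
  constructor
  · intro h; linarith
  · intro h; rw [h]; ring

theorem mem_xi {n r : ℕ} {z v : V n r} : v ∈ xi (sph n r) (lam n r) z ↔
    inner ℝ z.1 v.1 = 0 ∧ inner ℝ z.1 v.2.1 = 0 ∧ ∀ k, v.2.2 k = 0 := by
  rw [xi, Submodule.mem_inf, mem_tangent]
  simp only [Submodule.mem_iInf, LinearMap.mem_ker, ContinuousLinearMap.coe_coe]
  constructor
  · rintro ⟨h1, h⟩
    have h0 := h 0
    rw [lam_zero] at h0
    have hk : ∀ k, v.2.2 k = 0 := by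
      intro k
      have := h k.succ
      rw [lam_succ, h0, zero_add] at this
      exact this
    refine ⟨h1, ?_, hk⟩
    rw [phi_apply] at h0
    simpa [hk] using h0
  · rintro ⟨h1, h2, hk⟩
    refine ⟨h1, fun i => ?_⟩
    have h0 : (inner ℝ z.1 (phi n r v) : ℝ) = 0 := by
      rw [phi_apply]; simpa [hk] using h2
    refine Fin.cases ?_ (fun k => ?_) i
    · rw [lam_zero, h0]
    · rw [lam_succ, h0, hk, zero_add]

/-- The bundle `R`. -/
def bR (n r : ℕ) (z : V n r) : Submodule ℝ (V n r) where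
  carrier := {v | v.1 = 0 ∧ ∃ ρ : ℝ, phi n r v = ρ • z.1}
  zero_mem' := ⟨rfl, 0, by simp⟩
  add_mem' := by
    rintro v w ⟨h1, ρ, h2⟩ ⟨h3, ρ', h4⟩
    exact ⟨by simp [h1, h3], ρ + ρ', by rw [map_add, h2, h4, add_smul]⟩
  smul_mem' := by
    rintro c v ⟨h1, ρ, h2⟩
    exact ⟨by simp [h1], c * ρ, by rw [map_smul, h2, mul_smul]⟩

theorem mem_bR {n r : ℕ} {z v : V n r} : v ∈ bR n r z ↔ v.1 = 0 ∧ ∃ ρ : ℝ, phi n r v = ρ • z.1 :=
  Iff.rfl

/-- The displacement of the contact action. -/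
def disp {n r : ℕ} (s : Fin (r + 2) → ℝ) (y : H n) : V n r :=
  (0, s 0 • y - ∑ k : Fin (r + 1), (s k.succ - s 0) • u n r k,
    fun k : Fin (r + 1) => s k.succ - s 0)

theorem phi_disp {n r : ℕ} (s : Fin (r + 2) → ℝ) (y : H n) : phi n r (disp s y) = s 0 • y := by
  rw [phi_apply]
  simp [disp]

theorem disp_add {n r : ℕ} (s t : Fin (r + 2) → ℝ) (y : H n) :
    (disp (s + t) y : V n r) = disp s y + disp t y := by
  refine Prod.ext (by simp [disp]) (Prod.ext ?_ ?_)
  · have : ∀ k : Fin (r + 1), (((s + t) k.succ - (s + t) 0) • u n r k : H n) =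
        (s k.succ - s 0) • u n r k + (t k.succ - t 0) • u n r k := by
      intro k; rw [← add_smul]; congr 1; simp only [Pi.add_apply]; ring
    change (s + t) 0 • y - ∑ k : Fin (r + 1), ((s + t) k.succ - (s + t) 0) • u n r k =
      (s 0 • y - ∑ k : Fin (r + 1), (s k.succ - s 0) • u n r k) +
        (t 0 • y - ∑ k : Fin (r + 1), (t k.succ - t 0) • u n r k)
    rw [Finset.sum_congr rfl (fun k _ => this k), Finset.sum_add_distrib, Pi.add_apply, add_smul]
    abel
  · funext k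
    simp only [disp, Prod.snd_add, Pi.add_apply]
    ring

theorem disp_smul {n r : ℕ} (c : ℝ) (s : Fin (r + 2) → ℝ) (y : H n) :
    (disp (c • s) y : V n r) = c • disp s y := by
  refine Prod.ext (by simp [disp]) (Prod.ext ?_ ?_)
  · have : ∀ k : Fin (r + 1), (((c • s) k.succ - (c • s) 0) • u n r k : H n) =
        c • ((s k.succ - s 0) • u n r k) := by
      intro k; rw [smul_smul]; congr 1; simp only [Pi.smul_apply, smul_eq_mul]; ring
    change (c • s) 0 • y - ∑ k : Fin (r + 1), ((c • s) k.succ - (c • s) 0) • u n r k =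
      c • (s 0 • y - ∑ k : Fin (r + 1), (s k.succ - s 0) • u n r k)
    rw [Finset.sum_congr rfl (fun k _ => this k), ← Finset.smul_sum, Pi.smul_apply, smul_sub,
      smul_smul, smul_eq_mul]
  · funext k
    simp only [disp, Prod.smul_snd, Pi.smul_apply, smul_eq_mul]
    ring

theorem disp_fst {n r : ℕ} (s : Fin (r + 2) → ℝ) (y : H n) : (disp s y : V n r).1 = 0 := rfl

theorem lam_disp {n r : ℕ} (s : Fin (r + 2) → ℝ) (z : V n r) (hz : sph n r z = 0)
    (i : Fin (r + 2)) : lam n r i z (disp s z.1) = s i := by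
  have h1 : (inner ℝ z.1 z.1 : ℝ) = 1 := by
    have : (inner ℝ z.1 z.1 : ℝ) - 1 = 0 := hz
    linarith
  refine Fin.cases ?_ (fun k => ?_) i
  · rw [lam_zero, phi_disp, inner_smul_right, h1, mul_one]
  · rw [lam_succ, phi_disp, inner_smul_right, h1, mul_one]
    simp [disp]

theorem disp_mem_bR {n r : ℕ} (s : Fin (r + 2) → ℝ) (z : V n r) : disp s z.1 ∈ bR n r z :=
  ⟨rfl, s 0, phi_disp s z.1⟩

theorem disp_mem_tangent {n r : ℕ} (s : Fin (r + 2) → ℝ) (z : V n r) :
    disp s z.1 ∈ tangent (sph n r) z := by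
  rw [mem_tangent, disp_fst, inner_zero_right]

end Pool.Agent.Y805.CF
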