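import Pool.Agent.Y805.CF.Ex

/-!
# The example is a `q`-contact structure on a closed manifold
-/

set_option autoImplicit false

open scoped ContDiff
open Set

noncomputable section

namespace Pool.Agent.Y805.CF

theorem sph_add {n r : ℕ} (z w : V n r) (hw : w.1 = 0) : sph n r (z + w) = sph n r z := by
  simp [sph, hw]

theorem ivec_fst {n r : ℕ} (a : Fin (n + 2) → ℤ) (b : Fin (r + 1) → ℤ) :
    (ivec a b : V n r).1 = 0 := rfl

theorem sph_eq {n r : ℕ} {z : V n r} (hz : sph n r z = 0) : (inner ℝ z.1 z.1 : ℝ) = 1 := by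
  have : (inner ℝ z.1 z.1 : ℝ) - 1 = 0 := hz
  linarith

theorem norm_eq {n r : ℕ} {z : V n r} : sph n r z = 0 ↔ ‖z.1‖ = 1 := by
  constructor
  · intro hz
    have := sph_eq hz
    rw [real_inner_self_eq_norm_sq] at this
    nlinarith [norm_nonneg z.1]
  · intro h
    rw [sph, real_inner_self_eq_norm_sq, h]; norm_num

/-- The compact fundamental domain of the translations in the first variable. -/
def cube (n : ℕ) : Set (H n) := (WithLp.toLp 2) '' (Set.Icc (0 : Fin (n + 2) → ℝ) 1)

theorem isCompact_cube (n : ℕ) : IsCompact (cube n) :=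
  isCompact_Icc.image (PiLp.continuous_toLp 2 _)

theorem isClosedManifold (n r : ℕ) : IsClosedManifold (sph n r) (tgroup n r) where
  finiteDimensional := inferInstance
  smooth_f := (contDiff_fst.inner ℝ contDiff_fst).sub contDiff_const
  regular := by
    intro z hz h
    have h1 := fderiv_sph z ((z.1, 0, 0) : V n r)
    rw [h] at h1
    simp only [zero_apply] at h1
    rw [sph_eq hz] at h1
    norm_num at h1
  connected := by
    have h1 : {x : V n r | sph n r x = 0} =
        (Metric.sphere (0 : H n) 1) ×ˢ (Set.univ : Set (H n × (Fin (r + 1) → ℝ))) := by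
      ext z
      simp [norm_eq]
    rw [h1]
    refine (isConnected_sphere ?_ 0 (by norm_num)).prod isConnected_univ
    rw [rank_eq_card_basis (EuclideanSpace.basisFun (Fin (n + 2)) ℝ).toBasis]
    simp
    norm_cast
    omega
  smooth := by
    rintro g ⟨a, b, hg⟩
    have : (g : V n r → V n r) = fun z => z + ivec a b := funext hg
    rw [this]
    exact contDiff_id.add contDiff_const
  invariant := by
    rintro g ⟨a, b, hg⟩ z
    rw [hg, sph_add _ _ (ivec_fst a b)]
  free := by
    rintro g ⟨a, b, hg⟩ z _ hz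
    have h0 : (ivec a b : V n r) = 0 := by
      have := hg z
      rw [hz] at this
      exact left_eq_add.1 this
    ext1 w
    rw [hg, h0, add_zero]; rfl
  properlyDiscontinuous := by
    intro K hK _
    obtain ⟨C, hC⟩ := hK.isBounded.exists_norm_le
    obtain ⟨N, hN⟩ := exists_nat_ge (2 * C)
    have hfin : ((Set.Icc (fun _ => -(N : ℤ)) (fun _ => (N : ℤ)) : Set (Fin (n + 2) → ℤ)) ×ˢ
        (Set.Icc (fun _ => -(N : ℤ)) (fun _ => (N : ℤ)) : Set (Fin (r + 1) → ℤ))).Finite :=
      (Set.finite_Icc _ _).prod (Set.finite_Icc _ _)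
    refine (hfin.image (fun p : (Fin (n + 2) → ℤ) × (Fin (r + 1) → ℤ) =>
      (Equiv.addRight (ivec p.1 p.2) : Equiv.Perm (V n r)))).subset ?_
    rintro g ⟨⟨a, b, hg⟩, x, hx, hgx⟩
    refine ⟨(a, b), ?_, ?_⟩
    · have hn : ‖(ivec a b : V n r)‖ ≤ N := by
        have h1 : (ivec a b : V n r) = g x - x := by rw [hg]; abel
        rw [h1]
        calc ‖g x - x‖ ≤ ‖g x‖ + ‖x‖ := norm_sub_le _ _
          _ ≤ C + C := add_le_add (hC _ hgx) (hC _ hx)
          _ ≤ N := by linarith
      have ha : ∀ i, |(a i : ℝ)| ≤ N := by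
        intro i
        have h1 : ‖(ivec a b : V n r).2.1‖ ≤ ‖(ivec a b : V n r)‖ :=
          (norm_fst_le _).trans (norm_snd_le _)
        have h2 : ‖(ivec a b : V n r).2.1 i‖ ≤ ‖(ivec a b : V n r).2.1‖ := PiLp.norm_apply_le _ i
        exact (h2.trans h1).trans hn
      have hb : ∀ k, |(b k : ℝ)| ≤ N := by
        intro k
        have h1 : ‖(ivec a b : V n r).2.2‖ ≤ ‖(ivec a b : V n r)‖ :=
          (norm_snd_le _).trans (norm_snd_le _)
        have h2 : ‖(ivec a b : V n r).2.2 k‖ ≤ ‖(ivec a b : V n r).2.2‖ := norm_le_pi_norm _ k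
        exact (h2.trans h1).trans hn
      refine ⟨⟨fun i => ?_, fun i => ?_⟩, ⟨fun k => ?_, fun k => ?_⟩⟩
      · have h4 := (abs_le.1 (ha i)).1
        have h5 : (-(N : ℤ) : ℤ) ≤ a i := by exact_mod_cast h4
        exact h5
      · have h4 := (abs_le.1 (ha i)).2
        have h5 : a i ≤ (N : ℤ) := by exact_mod_cast h4
        exact h5
      · have h4 := (abs_le.1 (hb k)).1
        have h5 : (-(N : ℤ) : ℤ) ≤ b k := by exact_mod_cast h4
        exact h5
      · have h4 := (abs_le.1 (hb k)).2
        have h5 : b k ≤ (N : ℤ) := by exact_mod_cast h4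
        exact h5
    · ext1 y
      rw [hg y]
      rfl
  cocompact := by
    refine ⟨(Metric.sphere (0 : H n) 1) ×ˢ (cube n ×ˢ (Set.Icc (0 : Fin (r + 1) → ℝ) 1)),
      (isCompact_sphere _ _).prod ((isCompact_cube n).prod isCompact_Icc), ?_, ?_⟩
    · rintro z ⟨hz, -⟩
      rw [Set.mem_ofPred_eq, norm_eq]
      simpa using hz
    · intro z hz
      refine ⟨Equiv.addRight (ivec (fun i => -⌊z.2.1 i⌋) (fun k => -⌊z.2.2 k⌋)),
        ⟨_, _, fun y => rfl⟩, ?_, ?_, ?_⟩
      · have h1 : (z + ivec (fun i => -⌊z.2.1 i⌋) (fun k => -⌊z.2.2 k⌋)).1 = z.1 := by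
          rw [Prod.fst_add, ivec_fst, add_zero]
        rw [Equiv.coe_addRight, h1]
        simpa using norm_eq.1 hz
      · refine ⟨fun i => z.2.1 i - ⌊z.2.1 i⌋, ⟨fun i => ?_, fun i => ?_⟩, ?_⟩
        · have := Int.floor_le (z.2.1 i)
          simp only [Pi.zero_apply]; linarith
        · have := Int.lt_floor_add_one (z.2.1 i)
          simp only [Pi.one_apply]; linarith
        · ext i
          simp [ivec, sub_eq_add_neg]
      · refine ⟨fun k => ?_, fun k => ?_⟩
        · have := Int.floor_le (z.2.2 k)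
          simp [ivec]
          exact this
        · have := Int.lt_floor_add_one (z.2.2 k)
          simp [ivec]
          linarith

/-- Splitting of the tangent vectors. -/
theorem splitting {n r : ℕ} {z : V n r} (hz : sph n r z = 0) :
    bR n r z ⊓ xi (sph n r) (lam n r) z = ⊥ ∧
      bR n r z ⊔ xi (sph n r) (lam n r) z = tangent (sph n r) z := by
  have hzz := sph_eq hz
  constructor
  · rw [Submodule.eq_bot_iff]
    rintro v ⟨⟨h1, ρ, h2⟩, h3⟩
    obtain ⟨-, h4, h5⟩ := mem_xi.1 h3
    have h6 : phi n r v = v.2.1 := by rw [phi_apply]; simp [h5]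
    rw [h6] at h2
    rw [h2, inner_smul_right, hzz, mul_one] at h4
    rw [h4, zero_smul] at h2
    exact Prod.ext h1 (Prod.ext h2 (funext h5))
  · apply le_antisymm
    · refine sup_le ?_ ?_
      · rintro v ⟨h1, -⟩
        rw [mem_tangent, h1, inner_zero_right]
      · exact inf_le_left
    · intro v hv
      rw [mem_tangent] at hv
      rw [Submodule.mem_sup]
      set ρ : ℝ := inner ℝ z.1 (phi n r v) with hρ
      refine ⟨(0, ρ • z.1 - ∑ k, v.2.2 k • u n r k, v.2.2), ⟨rfl, ρ, ?_⟩,
        (v.1, phi n r v - ρ • z.1, 0), ?_, ?_⟩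
      · rw [phi_apply]; simp
      · rw [mem_xi]
        refine ⟨hv, ?_, fun k => rfl⟩
        rw [inner_sub_right, inner_smul_right, hzz, ← hρ]; ring
      · refine Prod.ext (by simp) (Prod.ext ?_ (by simp))
        change ρ • z.1 - ∑ k, v.2.2 k • u n r k + (phi n r v - ρ • z.1) = v.2.1
        rw [phi_apply]; abel

theorem isQContact (n r : ℕ) :
    IsQContact (sph n r) (tgroup n r) (n + 1) (r + 2) (lam n r) (bR n r) where
  n_pos := by omega
  q_pos := by omega
  manifold := isClosedManifold n r
  finrank_eq := by simp; omega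
  smooth := smooth_lam
  invariant := by
    rintro i g ⟨a, b, hg⟩ x _ v _
    have hg' : (g : V n r → V n r) = fun z => z + ivec a b := funext hg
    have h1 : fderiv ℝ (g : V n r → V n r) x v = v := by
      rw [hg', fderiv_add_const]; simp
    rw [h1]
    have h2 : (g x).1 = x.1 := by rw [hg, Prod.fst_add, ivec_fst, add_zero]
    refine Fin.cases ?_ (fun k => ?_) i
    · rw [lam_zero, lam_zero, h2]
    · rw [lam_succ, lam_succ, h2]
  linearIndependent := by
    intro z hz
    rw [Fintype.linearIndependent_iff]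
    intro c hc i
    have h := congrArg (fun f : tangent (sph n r) z →ₗ[ℝ] ℝ =>
      f ⟨disp (Pi.single i 1) z.1, disp_mem_tangent _ z⟩) hc
    simp only [LinearMap.coe_sum, Finset.sum_apply, LinearMap.smul_apply,
      LinearMap.domRestrict_apply, ContinuousLinearMap.coe_coe, smul_eq_mul,
      LinearMap.zero_apply] at h
    simp only [lam_disp _ z hz] at h
    simpa [Pi.single_apply] using h
  splitting := fun x hx => splitting hx
  nondegenerate := by
    intro i z hz v hv h
    obtain ⟨h1, h2, h3⟩ := mem_xi.1 hv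
    have e1 := h ((0, v.1, 0) : V n r) (mem_xi.2 ⟨by simp, h1, fun k => rfl⟩)
    have e2 := h ((v.2.1, 0, 0) : V n r) (mem_xi.2 ⟨h2, by simp, fun k => rfl⟩)
    have p1 : phi n r ((0, v.1, 0) : V n r) = v.1 := by rw [phi_apply]; simp
    have p2 : phi n r ((v.2.1, 0, 0) : V n r) = 0 := by rw [phi_apply]; simp
    have p3 : phi n r v = v.2.1 := by rw [phi_apply]; simp [h3]
    rw [extD_lam, p1, p3, inner_zero_left, sub_zero, inner_self_eq_zero] at e1
    rw [extD_lam, p2, p3, inner_zero_right, zero_sub, neg_eq_zero, inner_self_eq_zero] at e2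
    exact Prod.ext e1 (Prod.ext e2 (funext h3))
  ker_eq := by
    intro i z hz v
    have hzz := sph_eq hz
    constructor
    · rintro ⟨-, h⟩
      have e1 := h ((0, v.1, 0) : V n r) (mem_tangent.2 (by simp))
      have p1 : phi n r ((0, v.1, 0) : V n r) = v.1 := by rw [phi_apply]; simp
      rw [extD_lam, p1, inner_zero_left, sub_zero, inner_self_eq_zero] at e1
      refine ⟨e1, inner ℝ z.1 (phi n r v), ?_⟩
      set w : H n := phi n r v - (inner ℝ z.1 (phi n r v) : ℝ) • z.1 with hw
      have hw1 : (inner ℝ z.1 w : ℝ) = 0 := by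
        rw [hw, inner_sub_right, inner_smul_right, hzz]; ring
      have e2 := h ((w, 0, 0) : V n r) (mem_tangent.2 hw1)
      rw [extD_lam, e1, inner_zero_left, zero_sub, neg_eq_zero] at e2
      have e3 : (inner ℝ w w : ℝ) = 0 := by
        have e4 : (inner ℝ w w : ℝ) = inner ℝ w (phi n r v) -
            (inner ℝ z.1 (phi n r v) : ℝ) * inner ℝ w z.1 := by
          conv_lhs => rw [hw]
          rw [← hw, inner_sub_right, inner_smul_right]
        rw [e4, real_inner_comm z.1 w, hw1, mul_zero, sub_zero]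
        exact e2
      rw [inner_self_eq_zero] at e3
      rw [hw, sub_eq_zero] at e3
      exact e3
    · rintro ⟨h1, ρ, h2⟩
      refine ⟨mem_tangent.2 (by rw [h1, inner_zero_right]), fun w hw => ?_⟩
      rw [mem_tangent] at hw
      rw [extD_lam, h1, h2, inner_zero_left, inner_smul_right, real_inner_comm, hw]
      ring

/-- The contact action of the example. -/
def action (n r : ℕ) : ContactAction (sph n r) (tgroup n r) (lam n r) (bR n r) where
  F s z := z + disp s z.1
  X i z := disp (Pi.single i 1) z.1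
  smooth := by
    have hs : ∀ i, ContDiff ℝ ∞ (fun p : (Fin (r + 2) → ℝ) × V n r => p.1 i) := fun i =>
      (contDiff_apply ℝ ℝ i).comp contDiff_fst
    refine contDiff_snd.add (contDiff_const.prodMk (ContDiff.prodMk ?_ ?_))
    · refine ContDiff.sub ((hs 0).smul (contDiff_fst.comp contDiff_snd)) ?_
      exact ContDiff.sum fun k _ => ((hs k.succ).sub (hs 0)).smul contDiff_const
    · exact contDiff_pi.2 fun k => (hs k.succ).sub (hs 0)
  preserves := fun s z => sph_add _ _ (disp_fst s z.1)
  zero := by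
    intro x
    have : (disp (0 : Fin (r + 2) → ℝ) x.1 : V n r) = 0 := by
      have := disp_smul (n := n) (r := r) 0 0 x.1
      simpa using this
    rw [this, add_zero]
  add := by
    intro s t x
    have h2 : (x + disp t x.1).1 = x.1 := by rw [Prod.fst_add, disp_fst, add_zero]
    rw [h2, disp_add]
    abel
  equivariant := by
    rintro g ⟨a, b, hg⟩ s x
    have h2 : (g x).1 = x.1 := by rw [hg, Prod.fst_add, ivec_fst, add_zero]
    rw [h2, hg, hg]
    abel
  reeb := by
    intro i z hz
    refine ⟨disp_mem_bR _ z, fun j => ?_⟩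
    rw [lam_disp _ z hz, Pi.single_apply]
    simp only [eq_comm]
  generated := by
    intro i s x
    have h2 : (x + disp s x.1).1 = x.1 := by rw [Prod.fst_add, disp_fst, add_zero]
    rw [h2]
    have h : (fun τ : ℝ => x + disp (s + τ • Pi.single i 1) x.1) =
        fun τ : ℝ => (x + disp s x.1) + τ • disp (Pi.single i 1) x.1 := by
      funext τ
      rw [disp_add, disp_smul, add_assoc]
    rw [h]
    have h3 : HasDerivAt (fun τ : ℝ => τ • (disp (Pi.single i 1) x.1 : V n r))
        ((1 : ℝ) • (disp (Pi.single i 1) x.1 : V n r)) 0 :=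
      (hasDerivAt_id (0 : ℝ)).smul_const _
    rw [one_smul] at h3
    exact h3.const_add _

end Pool.Agent.Y805.CF
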